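import Pool.Agent.H70.OQ.Targets
import Pool.Agent.H68.AC.BCx

/-!
# MP_0f8dca_lc, board oq_modules: module CUB
-/

set_option autoImplicit false

namespace Pool.Agent.H65.OQ.CUB

open Finset Pool.Agent.H70.OQ Pool.Agent.H6.NB

theorem ic_true {p : Prop} (h : p) : ic p = 1 := by
  unfold ic; simp [h]

theorem ic_false {p : Prop} (h : ¬ p) : ic p = 0 := by
  unfold ic; simp [h]

theorem ic_nonneg (p : Prop) : 0 ≤ ic p := by
  by_cases h : p
  · rw [ic_true h]; norm_num
  · rw [ic_false h]

theorem ic_le_one (p : Prop) : ic p ≤ 1 := by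
  by_cases h : p
  · rw [ic_true h]
  · rw [ic_false h]; norm_num

theorem sum_ic {ι : Type} [Fintype ι] (P : ι → Prop) [DecidablePred P] :
    ∑ i, ic (P i) = ((univ.filter P).card : ℝ) := by
  rw [Finset.card_filter]
  push_cast
  refine Finset.sum_congr rfl fun i _ => ?_
  by_cases h : P i
  · rw [ic_true h, if_pos h]
  · rw [ic_false h, if_neg h]

theorem lw_nonneg {A : Type} [Fintype A] {q : ℝ} (hq : 0 ≤ q) (hq1 : q ≤ 1) (l : A → Bool) :
    0 ≤ lw q l := by
  unfold lw
  refine Finset.prod_nonneg fun a _ => ?_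
  split_ifs <;> linarith

theorem cub (h1 : T_SWU) (h2 : T_CMB) (h3 : T_PSH) (h4 : T_CL0) (h5 : T_LWS) : T_CUB := by
  classical
  intro X _ _ D S w r k k' g hx hg hhx hw hk hkk
  set N : ℕ := Fintype.card X with hN
  set q : ℝ := qw w with hq
  have hw1 : (1:ℝ) ≤ w := by exact_mod_cast hw
  have hqpos : 0 < q := by rw [hq]; unfold qw; positivity
  have hwq : 128 * w * q ≤ 1 := by
    rw [hq]; unfold qw
    apply le_of_eq
    field_simp
  have hq12 : q ≤ 1 / 2 := by nlinarith
  have hq1 : q ≤ 1 := by linarith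
  set p : ℝ := q ^ (D + 1) with hp
  have hp0 : 0 < p := by positivity
  have hp1 : p ≤ 1 := pow_le_one₀ hqpos.le hq1
  set m : ℕ := w + (2 * w + 1) * (4 * k + r) with hm
  set Sy : (X → Bool) → Finset X := fun y => univ.filter fun x => hx x (flp y x) ≠ g y with hSy
  set By : (X → Bool) → Finset X := fun y => univ.filter fun x => hx x y ≠ g y with hBy
  set Wt : (Fin (D + 1) → Pool.Agent.H68.AC.PA X) → ℝ := Pool.Agent.H68.AC.Wt q (1 / 2) with hWt
  have hWt0 : ∀ R, 0 ≤ Wt R := fun R =>
    Pool.Agent.H68.AC.Wt_nonneg hqpos.le hq1 (by norm_num) (by norm_num) R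
  set κ : (Fin (D + 1) → Pool.Agent.H68.AC.PA X) → Pool.Agent.H68.AC.PA X := fun R =>
    Pool.Agent.H68.AC.fd R (D + 1) with hκ
  have hcardN : ((univ : Finset (X → Bool)).card : ℝ) = 2 ^ N := by
    rw [Finset.card_univ, Fintype.card_fun, Fintype.card_bool]
    push_cast
    rfl
  -- step 1
  have step1 : ((univ.filter fun z : X → Bool => k' < (Sy z).card).card : ℝ) * (p / 2) ≤
      ∑ y : X → Bool, ∑ l : X → Bool, lw p l *
        ic (m < ((Sy y).filter fun x => l x = true).card) := by
    rw [← sum_ic, Finset.sum_mul]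
    refine Finset.sum_le_sum fun y _ => ?_
    by_cases hy : k' < (Sy y).card
    · rw [ic_true hy, one_mul]
      have hk'' : (k' : ℝ) ≤ (Sy y).card := by exact_mod_cast hy.le
      refine h4 X p (Sy y) m hp0.le hp1 ?_ (by omega)
      calc (2 * m : ℝ) = (2 * (w + (2 * w + 1) * (4 * k + r)) : ℝ) := by rw [hm]; push_cast; ring
        _ ≤ k' * p := hkk
        _ ≤ (Sy y).card * p := by gcongr
    · rw [ic_false hy, zero_mul]
      exact Finset.sum_nonneg fun l _ => mul_nonneg (lw_nonneg hp0.le hp1 l) (ic_nonneg _)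
  -- step 2: push forward
  have step2 := h3 X (D + 1) q (fun y l => ic (m < ((Sy y).filter fun x => l x = true).card))
  -- total weight
  have hWt1 : ∑ R, Wt R = 1 := by
    have h := h3 X (D + 1) q (fun _ _ => 1)
    simp only [mul_one] at h
    have e1 : ∑ y : X → Bool, ∑ l : X → Bool, lw (q ^ (D + 1)) l = 2 ^ N := by
      rw [h5 X (q ^ (D+1))]
      rw [Finset.sum_const, nsmul_eq_mul, hcardN, mul_one]
    rw [e1] at h
    have e2 : ∑ R : Fin (D + 1) → Pool.Agent.H68.AC.PA X, ∑ _z : X → Bool, Wt R =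
        2 ^ N * ∑ R, Wt R := by
      rw [Finset.mul_sum]
      refine Finset.sum_congr rfl fun R _ => ?_
      rw [Finset.sum_const, nsmul_eq_mul, hcardN]
    have h' : ∑ R : Fin (D + 1) → Pool.Agent.H68.AC.PA X, ∑ _z : X → Bool, Wt R = 2 ^ N := h
    rw [e2] at h'
    have hpos : (0:ℝ) < 2 ^ N := by positivity
    have : (2:ℝ) ^ N * ∑ R, Wt R = 2 ^ N * 1 := by rw [h', mul_one]
    exact mul_left_cancel₀ hpos.ne' this
  -- the bound from the previous level
  have hprev : ∑ R, Wt R * ((univ.filter fun z : X → Bool => k < (By (cpl (κ R) z)).card).card : ℝ) =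
      ((univ.filter fun z : X → Bool => k < (By z).card).card : ℝ) := by
    have h := h3 X (D + 1) q (fun y _ => ic (k < (By y).card))
    have e1 : ∑ y : X → Bool, ∑ l : X → Bool, lw (q ^ (D + 1)) l * ic (k < (By y).card) =
        ((univ.filter fun z : X → Bool => k < (By z).card).card : ℝ) := by
      rw [← sum_ic]
      refine Finset.sum_congr rfl fun y _ => ?_
      rw [← Finset.sum_mul, h5 X (q ^ (D+1)), one_mul]
    rw [e1] at h
    rw [← h]
    refine Finset.sum_congr rfl fun R _ => ?_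
    rw [← sum_ic, Finset.mul_sum]
  -- goodness
  set good : (Fin (D + 1) → Pool.Agent.H68.AC.PA X) → Prop := fun R =>
    ∀ i : Option X, ∃ T : Pool.Agent.H68.AC.DT X, T.depth ≤ w ∧
      ∀ y, Pool.Agent.H68.AC.Ext (κ R) y → T.eval y = (i.elim g hx) y with hgood
  have hsw : ∑ R, Wt R * ic (¬ good R) ≤ ((N : ℝ) + 1) * ((S : ℝ) + 1) ^ (D + 1) / 2 ^ w := by
    have h := h1 X (Option X) D S w q (fun i => i.elim g hx) (by
      intro i
      rcases i with _ | x
      · exact hg
      · exact hhx x) hw hqpos hq12 hwq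
    rw [Fintype.card_option] at h
    push_cast at h
    exact h
  -- bound for each restriction
  have hinner : ∀ R, ∑ z : X → Bool, ic (m < ((Sy (cpl (κ R) z)).filter fun x =>
      decide (κ R x = none) = true).card) ≤
      2 ^ N * ic (¬ good R) + 2 ^ N / 4 ^ r + (N : ℝ) ^ r *
        ((univ.filter fun z : X → Bool => k < (By (cpl (κ R) z)).card).card : ℝ) := by
    intro R
    by_cases hR : good R
    · have hc := h2 X w k r (κ R) g hx hk (hR none) (fun x => hR (some x))
      have e1 : ∑ z : X → Bool, ic (m < ((Sy (cpl (κ R) z)).filter fun x =>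
          decide (κ R x = none) = true).card) =
          ((univ.filter fun z : X → Bool => w + (2 * w + 1) * (4 * k + r) < (univ.filter fun x =>
            κ R x = none ∧ hx x (flp (cpl (κ R) z) x) ≠ g (cpl (κ R) z)).card).card : ℝ) := by
        rw [← sum_ic]
        refine Finset.sum_congr rfl fun z _ => ?_
        congr 2
        rw [hSy, Finset.filter_filter]
        congr 1
        ext x
        simp [and_comm]
      rw [e1]
      have hc' : ((univ.filter fun z : X → Bool => w + (2 * w + 1) * (4 * k + r) <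
          (univ.filter fun x => κ R x = none ∧
            hx x (flp (cpl (κ R) z) x) ≠ g (cpl (κ R) z)).card).card : ℝ) * 4 ^ r ≤
          2 ^ N + 4 ^ r * (N : ℝ) ^ r *
            ((univ.filter fun z : X → Bool => k < (By (cpl (κ R) z)).card).card : ℝ) := by
        exact_mod_cast hc
      have h4r : (0:ℝ) < 4 ^ r := by positivity
      have hbound : ((univ.filter fun z : X → Bool => w + (2 * w + 1) * (4 * k + r) <
          (univ.filter fun x => κ R x = none ∧
            hx x (flp (cpl (κ R) z) x) ≠ g (cpl (κ R) z)).card).card : ℝ) ≤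
          (2 ^ N + 4 ^ r * (N : ℝ) ^ r *
            ((univ.filter fun z : X → Bool => k < (By (cpl (κ R) z)).card).card : ℝ)) / 4 ^ r := by
        rw [le_div_iff₀ h4r]; exact hc'
      refine hbound.trans (le_of_eq ?_)
      rw [ic_false (not_not.2 hR)]
      field_simp
      ring
    · rw [ic_true hR]
      have e1 : ∑ z : X → Bool, ic (m < ((Sy (cpl (κ R) z)).filter fun x =>
          decide (κ R x = none) = true).card) ≤ 2 ^ N := by
        refine (Finset.sum_le_sum fun z _ => ic_le_one _).trans ?_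
        rw [Finset.sum_const, nsmul_eq_mul, hcardN, mul_one]
      have e2 : (0:ℝ) ≤ 2 ^ N / 4 ^ r := by positivity
      have e3 : (0:ℝ) ≤ (N : ℝ) ^ r *
        ((univ.filter fun z : X → Bool => k < (By (cpl (κ R) z)).card).card : ℝ) := by positivity
      linarith
  have step3 : ∑ R, ∑ z : X → Bool, Wt R * ic (m < ((Sy (cpl (κ R) z)).filter fun x =>
      decide (κ R x = none) = true).card) ≤
      2 ^ N * (((N : ℝ) + 1) * ((S : ℝ) + 1) ^ (D + 1) / 2 ^ w) + 2 ^ N / 4 ^ r + (N : ℝ) ^ r *
        ((univ.filter fun z : X → Bool => k < (By z).card).card : ℝ) := by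
    calc ∑ R, ∑ z : X → Bool, Wt R * ic (m < ((Sy (cpl (κ R) z)).filter fun x =>
          decide (κ R x = none) = true).card)
        = ∑ R, Wt R * ∑ z : X → Bool, ic (m < ((Sy (cpl (κ R) z)).filter fun x =>
            decide (κ R x = none) = true).card) :=
          Finset.sum_congr rfl fun R _ => (Finset.mul_sum _ _ _).symm
      _ ≤ ∑ R, Wt R * (2 ^ N * ic (¬ good R) + 2 ^ N / 4 ^ r + (N : ℝ) ^ r *
            ((univ.filter fun z : X → Bool => k < (By (cpl (κ R) z)).card).card : ℝ)) :=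
          Finset.sum_le_sum fun R _ => mul_le_mul_of_nonneg_left (hinner R) (hWt0 R)
      _ = 2 ^ N * ∑ R, Wt R * ic (¬ good R) + 2 ^ N / 4 ^ r * ∑ R, Wt R + (N : ℝ) ^ r *
            ∑ R, Wt R *
              ((univ.filter fun z : X → Bool => k < (By (cpl (κ R) z)).card).card : ℝ) := by
          rw [Finset.mul_sum, Finset.mul_sum, Finset.mul_sum, ← Finset.sum_add_distrib,
            ← Finset.sum_add_distrib]
          refine Finset.sum_congr rfl fun R _ => ?_
          ring
      _ ≤ _ := by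
          rw [hWt1, hprev, mul_one]
          gcongr
  have main : ((univ.filter fun z : X → Bool => k' < (Sy z).card).card : ℝ) * (p / 2) ≤
      2 ^ N * (((N : ℝ) + 1) * ((S : ℝ) + 1) ^ (D + 1) / 2 ^ w) + 2 ^ N / 4 ^ r + (N : ℝ) ^ r *
        ((univ.filter fun z : X → Bool => k < (By z).card).card : ℝ) := by
    refine step1.trans (le_trans (le_of_eq ?_) step3)
    exact step2.symm
  have hfin : ((univ.filter fun z : X → Bool => k' < (Sy z).card).card : ℝ) ≤
      2 / p * (2 ^ N * (((N : ℝ) + 1) * ((S : ℝ) + 1) ^ (D + 1) * 2 / 2 ^ w + 1 / 4 ^ r) +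
        (N : ℝ) ^ r * ((univ.filter fun z : X → Bool => k < (By z).card).card : ℝ)) := by
    have e0 : ((univ.filter fun z : X → Bool => k' < (Sy z).card).card : ℝ) =
        2 / p * (((univ.filter fun z : X → Bool => k' < (Sy z).card).card : ℝ) * (p / 2)) := by
      field_simp
    rw [e0]
    refine mul_le_mul_of_nonneg_left (main.trans ?_) (by positivity)
    have e1 : (0:ℝ) ≤ ((N : ℝ) + 1) * ((S : ℝ) + 1) ^ (D + 1) / 2 ^ w := by positivity
    have e2 : ((N : ℝ) + 1) * ((S : ℝ) + 1) ^ (D + 1) * 2 / 2 ^ w =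
        2 * (((N : ℝ) + 1) * ((S : ℝ) + 1) ^ (D + 1) / 2 ^ w) := by ring
    rw [e2]
    have e3 : (0:ℝ) ≤ 2 ^ N * (((N : ℝ) + 1) * ((S : ℝ) + 1) ^ (D + 1) / 2 ^ w) := by positivity
    have e4 : (2:ℝ) ^ N * (2 * (((N : ℝ) + 1) * ((S : ℝ) + 1) ^ (D + 1) / 2 ^ w) + 1 / 4 ^ r) =
        2 * (2 ^ N * (((N : ℝ) + 1) * ((S : ℝ) + 1) ^ (D + 1) / 2 ^ w)) + 2 ^ N / 4 ^ r := by ring
    rw [e4]
    linarith
  exact hfin

end Pool.Agent.H65.OQ.CUB
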