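import Pool.Agent.H70.OQ.Targets
import Pool.Agent.H68.AC.Final
import Pool.Agent.H68.AC.Sw

/-!
# MP_0f8dca_lc, board oq_modules: module SWX
-/

set_option autoImplicit false

namespace Pool.Agent.H65.OQ.SWX

open Finset Pool.Agent.H70.OQ

variable {A Z : Type} [Fintype A] [DecidableEq A] [Fintype Z] [DecidableEq Z]

/-- the restriction given by a state -/
def res (st : A → Option (Z × Bool)) : Pool.Agent.H68.AC.PA (A × Z) := fun v =>
  match st v.1 with
  | none => some true
  | some zb => if v.2 = zb.1 then (if zb.2 then none else some false) else some true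

/-- the weight of one entry of a state -/
noncomputable def ua (q : ℝ) (L : A → Finset Z) (a : A) : Option (Z × Bool) → ℝ
  | none => 1 / (Fintype.card A : ℝ)
  | some zb => (if zb.1 ∈ L a then 1 / ((L a).card : ℝ) else 0) * (if zb.2 then q else 1 - q)

theorem ua_nonneg {q : ℝ} (hq : 0 ≤ q) (hq1 : q ≤ 1) (L : A → Finset Z) (a : A)
    (o : Option (Z × Bool)) : 0 ≤ ua q L a o := by
  rcases o with _ | ⟨z, b⟩
  · simp only [ua]; positivity
  · simp only [ua]
    refine mul_nonneg ?_ ?_
    · split_ifs <;> positivity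
    · split_ifs <;> linarith

/-- the state of a pair of choices, a path and the encoded restriction -/
noncomputable def stt (h : A → Z) (l : A → Bool) (π : List ((A × Z) × Bool))
    (R' : Pool.Agent.H68.AC.PA (A × Z)) : A → Option (Z × Bool) := fun a =>
  if (a, h a) ∈ π.map Prod.fst then (if R' (a, h a) = some true then none else some (h a, false))
  else some (h a, l a)

theorem sum_ua {q : ℝ} (L : A → Finset Z) (hL : ∀ a, Fintype.card A ≤ (L a).card) :
    ∑ st : A → Option (Z × Bool), ∏ a, ua q L a (st a) ≤ 3 := by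
  have h1 : ∑ st : A → Option (Z × Bool), ∏ a, ua q L a (st a) =
      ∏ a, ∑ o : Option (Z × Bool), ua q L a o := by
    rw [Finset.prod_univ_sum]
    rw [Fintype.piFinset_univ]
  rw [h1]
  have h2 : ∀ a : A, ∑ o : Option (Z × Bool), ua q L a o = 1 / (Fintype.card A : ℝ) + 1 := by
    intro a
    rw [Fintype.sum_option]
    congr 1
    rw [Fintype.sum_prod_type]
    simp only [ua]
    have h3 : ∀ z : Z, ∑ b : Bool, (if z ∈ L a then 1 / ((L a).card : ℝ) else 0) *
        (if b = true then q else 1 - q) = if z ∈ L a then 1 / ((L a).card : ℝ) else 0 := by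
      intro z
      rw [← Finset.mul_sum, Fintype.sum_bool]
      simp
    simp only [h3]
    rw [Finset.sum_ite_mem, Finset.univ_inter, Finset.sum_const, nsmul_eq_mul]
    have hc : 0 < Fintype.card A := Fintype.card_pos_iff.2 ⟨a⟩
    have h4 : (0:ℝ) < (L a).card := by exact_mod_cast lt_of_lt_of_le hc (hL a)
    field_simp
  simp only [h2, Finset.prod_const, Finset.card_univ]
  set N : ℕ := Fintype.card A with hN
  rcases Nat.eq_zero_or_pos N with h0 | h0
  · rw [h0]; norm_num
  · have hN0 : (0:ℝ) < N := by exact_mod_cast h0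
    calc (1 / (N : ℝ) + 1) ^ N ≤ (Real.exp (1 / N)) ^ N := by
          gcongr
          exact Real.add_one_le_exp _
      _ = Real.exp 1 := by
          rw [← Real.exp_nat_mul]
          congr 1
          field_simp
      _ ≤ 3 := by
          have := Real.exp_one_lt_d9
          linarith

/-- `gW` with empty planted set as a product over the rows. -/
theorem gW_rows (μ : ℝ) (h : A → Z) (ψ : List ((A × Z) × Bool)) (hnd : (ψ.map Prod.fst).Nodup)
    (hh : ∀ v ∈ ψ.map Prod.fst, v.2 = h v.1) :
    Pool.Agent.H68.AC.gW μ ∅ ψ = ∏ a : A, if (a, h a) ∈ ψ.map Prod.fst then μ else 1 := by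
  rw [Pool.Agent.H68.AC.gW_eq μ ∅ ψ hnd, Fintype.prod_prod_type]
  refine Finset.prod_congr rfl fun a _ => ?_
  rw [Finset.prod_eq_single (h a)]
  · simp
  · intro z _ hz
    rw [if_neg]
    intro hm
    exact hz (hh _ hm)
  · intro hc
    exact absurd (Finset.mem_univ _) hc

theorem swx : T_SWX := by
  classical
  intro A Z _ _ _ _ cs w n q L hw hd hq hwq hL
  have hw1 : (1:ℝ) ≤ w := by exact_mod_cast hw
  have hq64 : 64 * q ≤ 1 := by nlinarith
  have hq1 : q ≤ 1 := by linarith
  set B : (A → Z) × (A → Bool) → Finset (List (List ((A × Z) × Bool))) :=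
    fun x => Pool.Agent.H68.AC.BPF cs n (kap x.1 x.2) with hB
  have hmask : ∀ R : Pool.Agent.H68.AC.PA (A × Z), Pool.Agent.H68.AC.mask ∅
      (Pool.Agent.H68.AC.mrg (fun _ => none) R) = R := by
    intro R; funext v; simp [Pool.Agent.H68.AC.mask, Pool.Agent.H68.AC.mrg]
  have hE : ∀ (x : (A → Z) × (A → Bool)) (π : List (List ((A × Z) × Bool))),
      ∃ R' : Pool.Agent.H68.AC.PA (A × Z), π ∈ B x →
      ((∀ v, v ∉ π.flatten.map Prod.fst → R' v = kap x.1 x.2 v) ∧
      (∀ v, v ∈ π.flatten.map Prod.fst → kap x.1 x.2 v = none ∧ R' v ≠ none) ∧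
      Pool.Agent.H68.AC.IsD cs ∅ R' π) := by
    intro x π
    by_cases h : π ∈ B x
    · obtain ⟨R', h1, h2, h3⟩ := Pool.Agent.H68.AC.SWM (A × Z) cs ∅ (fun _ => none)
        (kap x.1 x.2) π (by rw [hmask]; exact (Pool.Agent.H68.AC.mem_BPF.1 h).1)
      rw [hmask] at h3
      exact ⟨R', fun _ => ⟨fun v hv => h1 v (Or.inr hv), fun v hv => h2 v (by simp) hv, h3⟩⟩
    · exact ⟨kap x.1 x.2, fun h' => absurd h' h⟩
  choose E hE using hE
  -- facts on block paths
  have hfree : ∀ x π, π ∈ B x → ∀ v ∈ π.flatten.map Prod.fst, v.2 = x.1 v.1 ∧ x.2 v.1 = true := by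
    intro x π hπ v hv
    have h := ((hE x π hπ).2.1 v hv).1
    unfold kap at h
    split_ifs at h with h1 h2
    exact ⟨h1, h2⟩
  have hnd : ∀ x π, π ∈ B x → (π.flatten.map Prod.fst).Nodup := fun x π hπ =>
    (Pool.Agent.H68.AC.bpn_t (A × Z) cs _ π (Pool.Agent.H68.AC.mem_BPF.1 hπ).1).1
  set Φ : (Σ _ : (A → Z) × (A → Bool), List (List ((A × Z) × Bool))) →
      (Σ _ : A → Option (Z × Bool), List (List ((A × Z) × Bool))) :=
    fun x => ⟨stt x.1.1 x.1.2 x.2.flatten (E x.1 x.2), x.2⟩ with hΦ
  -- the encoded restriction is determined by the state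
  have hres : ∀ x π, π ∈ B x → E x π = res (stt x.1 x.2 π.flatten (E x π)) := by
    intro x π hπ
    obtain ⟨h1, h2, _⟩ := hE x π hπ
    funext v
    obtain ⟨a, z⟩ := v
    by_cases hv : (a, z) ∈ π.flatten.map Prod.fst
    · obtain ⟨hz, hl⟩ := hfree x π hπ _ hv
      simp only at hz hl
      subst hz
      have h3 := (h2 _ hv).2
      simp only [res, stt, hv, if_true]
      by_cases h4 : E x π (a, x.1 a) = some true
      · simp [h4]
      · rw [if_neg h4]
        simp only [if_true, Bool.false_eq_true, if_false]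
        rcases hb : E x π (a, x.1 a) with _ | b
        · exact absurd hb h3
        · cases b
          · rfl
          · exact absurd hb h4
    · rw [h1 _ hv]
      simp only [res, stt, kap]
      by_cases hz : z = x.1 a
      · subst hz
        simp only [hv, if_false, if_true]
      · simp only [hz, if_false]
        split_ifs <;> simp_all
  set U : Finset (List (List ((A × Z) × Bool))) := univ.biUnion B with hU
  set S : (A → Option (Z × Bool)) → Finset (List (List ((A × Z) × Bool))) := fun st =>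
    U.filter (fun π => Pool.Agent.H68.AC.IsD cs ∅ (res st) π) with hS
  set W : (A → Option (Z × Bool)) → ℝ := fun st => ∏ a, ua q L a (st a) with hW
  have hW0 : ∀ st, 0 ≤ W st := fun st => Finset.prod_nonneg fun a _ => ua_nonneg hq.le hq1 L a _
  set G : (Σ _ : A → Option (Z × Bool), List (List ((A × Z) × Bool))) → ℝ := fun y =>
    W y.1 * Pool.Agent.H68.AC.gW (4 * q) ∅ y.2.flatten with hG
  have hμ : 0 ≤ 4 * q := by linarith
  have hG0 : ∀ y, 0 ≤ G y := fun y => mul_nonneg (hW0 _) (Pool.Agent.H68.AC.gW_nonneg hμ _ _)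
  have hstep : ∀ x ∈ univ.sigma B, uw L x.1.1 * lw q x.1.2 *
      Pool.Agent.H68.AC.gW 2 ∅ x.2.flatten ≤ G (Φ x) := by
    rintro ⟨⟨h, l⟩, π⟩ hx
    rw [Finset.mem_sigma] at hx
    have hπ := hx.2
    have hn := hnd _ _ hπ
    have hf := hfree _ _ hπ
    simp only [hG, hΦ, hW]
    simp only at hn hf
    rw [gW_rows 2 h _ hn (fun v hv => (hf v hv).1), gW_rows (4 * q) h _ hn (fun v hv => (hf v hv).1),
      uw, lw, ← Finset.prod_mul_distrib, ← Finset.prod_mul_distrib, ← Finset.prod_mul_distrib]
    have hX0 : ∀ a, 0 ≤ (if h a ∈ L a then 1 / ((L a).card : ℝ) else 0) := by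
      intro a; split_ifs <;> positivity
    refine Finset.prod_le_prod (fun a _ => ?_) (fun a _ => ?_)
    · refine mul_nonneg (mul_nonneg (hX0 a) ?_) ?_
      · split_ifs <;> linarith
      · split_ifs <;> norm_num
    · by_cases hv : (a, h a) ∈ π.flatten.map Prod.fst
      · have hl : l a = true := (hf _ hv).2
        simp only [stt, hv, if_true, hl]
        have hXle : (if h a ∈ L a then 1 / ((L a).card : ℝ) else 0) ≤
            1 / (Fintype.card A : ℝ) := by
          have hc : 0 < Fintype.card A := Fintype.card_pos_iff.2 ⟨a⟩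
          have hc' : (0:ℝ) < Fintype.card A := by exact_mod_cast hc
          split_ifs
          · apply one_div_le_one_div_of_le hc'
            exact_mod_cast hL a
          · positivity
        by_cases h4 : E (h, l) π (a, h a) = some true
        · rw [if_pos h4]
          simp only [ua]
          have := hX0 a
          nlinarith
        · rw [if_neg h4]
          simp only [ua, Bool.false_eq_true, if_false]
          have h5 : q * 2 ≤ (1 - q) * (4 * q) := by nlinarith
          calc (if h a ∈ L a then 1 / ((L a).card : ℝ) else 0) * q * 2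
              = (if h a ∈ L a then 1 / ((L a).card : ℝ) else 0) * (q * 2) := by ring
            _ ≤ (if h a ∈ L a then 1 / ((L a).card : ℝ) else 0) * ((1 - q) * (4 * q)) :=
                mul_le_mul_of_nonneg_left h5 (hX0 a)
            _ = _ := by ring
      · simp only [stt, hv, if_false, ua, mul_one]
        exact le_rfl
  have hinj : Set.InjOn Φ (univ.sigma B) := by
    rintro ⟨⟨h1, l1⟩, π1⟩ hx1 ⟨⟨h2, l2⟩, π2⟩ hx2 he
    rw [Finset.mem_coe, Finset.mem_sigma] at hx1 hx2
    simp only [hΦ, Sigma.mk.injEq] at he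
    obtain ⟨h0, h0'⟩ := he
    have h0' : π1 = π2 := eq_of_heq h0'
    subst h0'
    have hf1 := hfree _ _ hx1.2
    have hf2 := hfree _ _ hx2.2
    simp only at hf1 hf2 h0
    have key : ∀ a, h1 a = h2 a ∧ l1 a = l2 a := by
      intro a
      have h3 := congrFun h0 a
      simp only [stt] at h3
      by_cases m1 : (a, h1 a) ∈ π1.flatten.map Prod.fst
      · by_cases m2 : (a, h2 a) ∈ π1.flatten.map Prod.fst
        · exact ⟨(hf2 _ m1).1, (hf1 _ m1).2.trans (hf2 _ m2).2.symm⟩
        · simp only [m1, m2, if_true, if_false] at h3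
          split_ifs at h3
          simp only [Option.some.injEq, Prod.mk.injEq] at h3
          exact absurd (h3.1 ▸ m1) m2
      · by_cases m2 : (a, h2 a) ∈ π1.flatten.map Prod.fst
        · simp only [m1, m2, if_true, if_false] at h3
          split_ifs at h3
          simp only [Option.some.injEq, Prod.mk.injEq] at h3
          exact absurd (h3.1 ▸ m2) m1
        · simp only [m1, m2, if_false, Option.some.injEq, Prod.mk.injEq] at h3
          exact h3
    have e1 : h1 = h2 := funext fun a => (key a).1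
    have e2 : l1 = l2 := funext fun a => (key a).2
    subst e1 e2
    rfl
  have hsub : (univ.sigma B).image Φ ⊆ univ.sigma S := by
    intro y hy
    obtain ⟨⟨x, π⟩, hx, rfl⟩ := Finset.mem_image.1 hy
    rw [Finset.mem_sigma] at hx
    rw [Finset.mem_sigma]
    refine ⟨mem_univ _, ?_⟩
    simp only [hS, hΦ, Finset.mem_filter]
    refine ⟨Finset.mem_biUnion.2 ⟨x, mem_univ _, hx.2⟩, ?_⟩
    rw [← hres x π hx.2]
    exact (hE x π hx.2).2.2
  calc ∑ h : A → Z, ∑ l : A → Bool, uw L h * lw q l *
        ∑ π ∈ Pool.Agent.H68.AC.BPF cs n (kap h l), Pool.Agent.H68.AC.gW 2 ∅ π.flatten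
      = ∑ x : (A → Z) × (A → Bool), uw L x.1 * lw q x.2 *
          ∑ π ∈ B x, Pool.Agent.H68.AC.gW 2 ∅ π.flatten := by
        rw [Fintype.sum_prod_type]
    _ = ∑ x ∈ univ.sigma B, uw L x.1.1 * lw q x.1.2 *
          Pool.Agent.H68.AC.gW 2 ∅ x.2.flatten := by
        rw [Finset.sum_sigma]
        exact Finset.sum_congr rfl (fun R _ => Finset.mul_sum _ _ _)
    _ ≤ ∑ x ∈ univ.sigma B, G (Φ x) := Finset.sum_le_sum hstep
    _ = ∑ y ∈ (univ.sigma B).image Φ, G y := (Finset.sum_image hinj).symm
    _ ≤ ∑ y ∈ univ.sigma S, G y :=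
        Finset.sum_le_sum_of_subset_of_nonneg hsub (fun y _ _ => hG0 y)
    _ = ∑ st : A → Option (Z × Bool), W st *
          ∑ π ∈ S st, Pool.Agent.H68.AC.gW (4 * q) ∅ π.flatten := by
        rw [Finset.sum_sigma]
        refine Finset.sum_congr rfl (fun R _ => ?_)
        rw [Finset.mul_sum]
    _ ≤ ∑ st : A → Option (Z × Bool), W st * (3 / 2) := by
        refine Finset.sum_le_sum (fun st _ => mul_le_mul_of_nonneg_left ?_ (hW0 st))
        exact Pool.Agent.H68.AC.SWS (A × Z) cs w ∅ (res st) (4 * q) (S st) hw hd hμ (by linarith)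
          (fun π hπ => (Finset.mem_filter.1 hπ).2)
    _ ≤ 5 := by
        rw [← Finset.sum_mul]
        have := sum_ua (q := q) L hL
        simp only [hW]
        linarith

end Pool.Agent.H65.OQ.SWX
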